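import Pool.Agent.H86.KB.Prof3

/-!
# The Komlós problem: the theorem of Banaszczyk for boxes, with the fourth power

Let `v_1, …, v_n` be vectors in the Euclidean unit ball of `ℝ ^ d` with entries of absolute value at
most `δ`, `0 < δ ≤ 1`, and let `x ∈ [-1, 1] ^ n` be arbitrary (for instance `x = 0`). For a signing
`ε` let `D_i` be the coordinate `i` of `∑ (ε_j - x_j) v_j`. For `p ≥ 1` let
`B (p) = min (p ^ (1 / 4)) (1 + δ p ^ (1 / 2) (1 + log (1 / δ)) ^ (3 / 2))`.

Theorem. There is an absolute constant `C` such that for all numbers `z_i ≥ 0` with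
`∑ e ^ (- z_i) ≤ 1` there is a signing with

(1) `|D_i| ≤ C B (1 + z_i)` for every coordinate `i`;

(2) for every real `s ≥ 0` at most `C min (n, d) e ^ (- s)` coordinates have `|D_i| > C B (1 + s)`.

So, for `δ = 1`, there is a signing in the box `∏ [-b_i, b_i]` if `b_i ≥ C` and
`∑ exp (- (b_i / C) ^ 4) ≤ 1 / e`. The theorem of Banaszczyk (1998) gives this with
`∑ exp (- (b_i / C) ^ 2)`: it is his theorem for boxes, with the fourth power in place of the square.
The theorem of Bansal and Jiang (2025), `|D_i| ≤ C (log d) ^ (1 / 4)`, is the case of equal `b_i`.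
For instance `|D_i| ≤ C (1 + log i) ^ (1 / 4)` for all `i`, for vectors with countably many
coordinates (in the order given), and at the same time the empirical distribution of the `|D_i|` has
the tail `exp (- c λ ^ 4)`, for all `λ` up to the maximum. (2) contains the bound
`C B (1 + log (min (n, d)))` for all coordinates.
The second term of the minimum is the version for the Beck-Fiala problem:
for a set system of maximal degree `t` the discrepancy of the set `i` is at most
`C (t ^ (1 / 2) + (1 + z_i) ^ (1 / 2) (1 + log t) ^ (3 / 2))`.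
The conjecture of Komlós says that `B` can be replaced by a constant.

Proof. A block lemma of the starting library (helper167), a form of the theorem of Bansal and Jiang,
reduces the number of fractional indices from `N` to `N e ^ (-M / 2)` at a cost of `O (B (M))` for
every row, multiplied by the fourth root of `M r` for rows of energy `r`, and keeps any set of
`N e ^ (-M / 2) / 50` rows unchanged; we keep the first ones in the order of the `z_i`. There are two
sequences of phases. In the first one the length grows from a constant (or from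
`δ ^ (-2) (1 + log (1 / δ)) ^ (-3)`) to `log N` by a factor `16`; the number of fractional indices
decreases so fast that only `N e ^ (- s)` rows still pay after the phase of length `s`.
In the second sequence the length is a constant proportion of the logarithm of the number of
fractional indices, and a row pays only in phases of length `O (z_i)`.
-/

set_option autoImplicit false

open Finset Real

namespace Pool.Agent.Results.MP_c81d26_co.GradedBounds

/-- The sign of a truth value. -/
def sgn (b : Bool) : ℝ := if b then 1 else -1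

/-- The coordinate `i` of `∑ (ε_j - x_j) v_j`. -/
noncomputable def dev {n d : ℕ} (v : Fin n → Fin d → ℝ) (x : Fin n → ℝ) (ε : Fin n → Bool)
    (i : Fin d) : ℝ :=
  ∑ j, (sgn (ε j) - x j) * v j i

/-- The signing `ε` agrees with `x` where `x` is a sign. -/
def Extends {n : ℕ} (x : Fin n → ℝ) (ε : Fin n → Bool) : Prop :=
  ∀ j, |x j| = 1 → sgn (ε j) = x j

/-- `min (p ^ (1 / 4)) (1 + δ p ^ (1 / 2) (1 + log (1 / δ)) ^ (3 / 2))`. -/
noncomputable def bound (δ p : ℝ) : ℝ :=
  min (p ^ (1 / 4 : ℝ)) (1 + δ * Real.sqrt p * (1 + Real.log (1 / δ)) ^ (3 / 2 : ℝ))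

/-- The constant. -/
theorem const_le {δ p : ℝ} (h0 : 0 < δ) (h1 : δ ≤ 1) (hp : 0 ≤ p) :
    δ * Pool.Agent.H86.KB.C1 (1 / δ ^ 2) p ≤ 80000 * bound δ p := by
  have hL : 0 ≤ Real.log (1 / δ) := Real.log_nonneg (by rw [le_div_iff₀ h0]; linarith)
  have hst : Real.sqrt (1 / δ ^ 2) = 1 / δ := by
    rw [Real.sqrt_div (by norm_num), Real.sqrt_one, Real.sqrt_sq h0.le]
  have hlog : Real.log (1 / δ ^ 2) = 2 * Real.log (1 / δ) := by
    rw [← Real.log_rpow (by positivity)]
    congr 1
    rw [Real.rpow_two]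
    field_simp
  have hs1 : Real.sqrt (960 * p) ≤ 36 * Real.sqrt p := by
    rw [show (36 : ℝ) = Real.sqrt (36 ^ 2) by rw [Real.sqrt_sq (by norm_num)],
      ← Real.sqrt_mul (by norm_num)]
    apply Real.sqrt_le_sqrt
    nlinarith
  have hs2 : Real.sqrt (Real.sqrt (960 * p)) ≤ 6 * p ^ (1 / 4 : ℝ) := by
    have h2 : Real.sqrt (36 * Real.sqrt p) = 6 * p ^ (1 / 4 : ℝ) := by
      rw [Real.sqrt_mul (by norm_num), show (36 : ℝ) = 6 ^ 2 by norm_num,
        Real.sqrt_sq (by norm_num), Real.sqrt_eq_rpow, Real.sqrt_eq_rpow, ← Real.rpow_mul hp]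
      norm_num
    rw [← h2]
    exact Real.sqrt_le_sqrt hs1
  have hs3 : Real.sqrt (960 * p) ≤ 31 * Real.sqrt p := by
    rw [show (31 : ℝ) = Real.sqrt (31 ^ 2) by rw [Real.sqrt_sq (by norm_num)],
      ← Real.sqrt_mul (by norm_num)]
    apply Real.sqrt_le_sqrt
    nlinarith
  have hpow : (1 + 2 * Real.log (1 / δ)) ^ (3 / 2 : ℝ)
      ≤ 3 * (1 + Real.log (1 / δ)) ^ (3 / 2 : ℝ) := by
    have h2 : (1 + 2 * Real.log (1 / δ)) ^ (3 / 2 : ℝ)
        ≤ (2 * (1 + Real.log (1 / δ))) ^ (3 / 2 : ℝ) :=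
      Real.rpow_le_rpow (by positivity) (by linarith) (by norm_num)
    rw [Real.mul_rpow (by norm_num) (by positivity)] at h2
    have h3 : (2 : ℝ) ^ (3 / 2 : ℝ) ≤ 3 := by
      have h4 : ((2 : ℝ) ^ (3 / 2 : ℝ)) ^ 2 ≤ 3 ^ 2 := by
        rw [← Real.rpow_natCast, ← Real.rpow_mul (by norm_num)]
        norm_num
      nlinarith [abs_le_of_sq_le_sq h4 (by norm_num : (0 : ℝ) ≤ 3),
        le_abs_self ((2 : ℝ) ^ (3 / 2 : ℝ))]
    have h5 : 0 ≤ (1 + Real.log (1 / δ)) ^ (3 / 2 : ℝ) := by positivity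
    nlinarith
  have hC : Pool.Agent.H86.KB.C1 (1 / δ ^ 2) p
      = min (520 * Real.sqrt (Real.sqrt (960 * p)) * (1 / δ))
        (520 * (1 / δ) + 753 * Real.sqrt (960 * p) * (1 + 2 * Real.log (1 / δ)) ^ (3 / 2 : ℝ)) := by
    unfold Pool.Agent.H86.KB.C1
    rw [hst, hlog]
  rw [hC]
  set A : ℝ := 520 * Real.sqrt (Real.sqrt (960 * p)) * (1 / δ) with hA
  set B : ℝ := 520 * (1 / δ) + 753 * Real.sqrt (960 * p) * (1 + 2 * Real.log (1 / δ)) ^ (3 / 2 : ℝ)
    with hB
  have h6 : δ * min A B ≤ δ * A := mul_le_mul_of_nonneg_left (min_le_left A B) h0.le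
  have h7 : δ * min A B ≤ δ * B := mul_le_mul_of_nonneg_left (min_le_right A B) h0.le
  unfold bound
  rw [mul_min_of_nonneg (p ^ (1 / 4 : ℝ)) _ (by norm_num : (0 : ℝ) ≤ 80000)]
  apply le_min
  · refine h6.trans ?_
    have h8 : δ * A = 520 * Real.sqrt (Real.sqrt (960 * p)) := by
      rw [hA]; field_simp
    rw [h8]
    have h9 : 0 ≤ p ^ (1 / 4 : ℝ) := by positivity
    linarith
  · refine h7.trans ?_
    have h8 : δ * B = 520
        + 753 * (δ * (Real.sqrt (960 * p) * (1 + 2 * Real.log (1 / δ)) ^ (3 / 2 : ℝ))) := by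
      rw [hB]; field_simp
    rw [h8]
    have h9 : Real.sqrt (960 * p) * (1 + 2 * Real.log (1 / δ)) ^ (3 / 2 : ℝ)
        ≤ (31 * Real.sqrt p) * (3 * (1 + Real.log (1 / δ)) ^ (3 / 2 : ℝ)) :=
      mul_le_mul hs3 hpow (by positivity) (by positivity)
    have h10 := mul_le_mul_of_nonneg_left h9 h0.le
    have h11 : 0 ≤ δ * Real.sqrt p * (1 + Real.log (1 / δ)) ^ (3 / 2 : ℝ) := by positivity
    have h12 : δ * ((31 * Real.sqrt p) * (3 * (1 + Real.log (1 / δ)) ^ (3 / 2 : ℝ)))
        = 93 * (δ * Real.sqrt p * (1 + Real.log (1 / δ)) ^ (3 / 2 : ℝ)) := by ring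
    rw [h12] at h10
    linarith

/-- There is an absolute constant `C` such that for all vectors `v_1, …, v_n` of the Euclidean unit ball
of `ℝ ^ d` with entries of absolute value at most `δ`, all `x ∈ [-1, 1] ^ n` and all numbers `z_i ≥ 0`
with `∑ e ^ (- z_i) ≤ 1` there is a signing `ε`, which agrees with `x` where `x` is a sign, with the
following properties, where `D_i = ∑_j (ε_j - x_j) v_j (i)`.

(1) `|D_i| ≤ C bound δ (1 + z_i)` for every coordinate `i`;

(2) for every `s ≥ 0` the number of the coordinates with `|D_i| > C bound δ (1 + s)` is at most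
`C min (n, d) e ^ (- s)`. -/
theorem result : ∃ C : ℝ, 0 < C ∧ ∀ (d n : ℕ) (v : Fin n → Fin d → ℝ) (δ : ℝ), 0 < δ → δ ≤ 1 →
    (∀ j i, |v j i| ≤ δ) → (∀ j, ∑ i, v j i ^ 2 ≤ 1) → ∀ x : Fin n → ℝ, (∀ j, |x j| ≤ 1) →
    ∀ z : Fin d → ℝ, (∀ i, 0 ≤ z i) → ∑ i, exp (-z i) ≤ 1 →
    ∃ ε : Fin n → Bool, Extends x ε ∧
      (∀ i, |dev v x ε i| ≤ C * bound δ (1 + z i)) ∧
      ∀ s : ℝ, 0 ≤ s →
        ((Finset.univ.filter fun i : Fin d => C * bound δ (1 + s) < |dev v x ε i|).card : ℝ)
          ≤ C * (min n d : ℕ) * exp (-s) := by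
  classical
  refine ⟨360000000, by norm_num, fun d n v δ h0 h1 hδ hv x hx z hz hzs => ?_⟩
  set σ : Equiv.Perm (Fin d) := Tuple.sort z with hσ
  have hmono : Monotone (z ∘ σ) := Tuple.monotone_sort z
  set a : Fin d → Fin n → ℝ := fun i j => v j (σ i) / δ with ha
  set t : ℝ := 1 / δ ^ 2 with ht
  have ht1 : 1 ≤ t := by
    rw [ht, le_div_iff₀ (by positivity)]
    nlinarith
  have ha1 : ∀ i j, |a i j| ≤ 1 := by
    intro i j
    simp only [ha]
    rw [abs_div, abs_of_pos h0, div_le_one h0]
    exact hδ j (σ i)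
  have hcol : ∀ j, ∑ i, a i j ^ 2 ≤ t := by
    intro j
    simp only [ha, div_pow]
    rw [← Finset.sum_div, ht, Equiv.sum_comp σ (fun i => v j i ^ 2)]
    exact div_le_div_of_nonneg_right (hv j) (by positivity)
  obtain ⟨y, hyE, hys, hy1, hy2⟩ := Pool.Agent.H86.KB.profile a t ht1 ha1 hcol x hx
  obtain ⟨ε, hε⟩ : ∃ ε : Fin n → Bool, ∀ j, sgn (ε j) = y j := by
    refine ⟨fun j => decide (y j = 1), fun j => ?_⟩
    unfold sgn
    by_cases h : y j = 1
    · simp [h]
    · have h2 : y j = -1 := by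
        rcases eq_or_eq_neg_of_abs_eq (hys j) with h3 | h3
        · exact absurd h3 h
        · exact h3
      simp [h2]
      norm_num
  have hdev : ∀ i, dev v x ε (σ i) = δ * ∑ j, a i j * (y j - x j) := by
    intro i
    unfold dev
    rw [Finset.mul_sum]
    refine Finset.sum_congr rfl fun j _ => ?_
    simp only [ha]
    rw [hε]
    field_simp
  have hdev' : ∀ i, |dev v x ε (σ i)| = δ * |∑ j, a i j * (y j - x j)| := by
    intro i
    rw [hdev, abs_mul, abs_of_pos h0]
  have hrank : ∀ i : Fin d, Real.log ((i : ℝ) + 1) ≤ z (σ i) := by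
    intro i
    have h2 : ((i : ℝ) + 1) * exp (-z (σ i)) ≤ 1 := by
      have h3 : ∑ i' ∈ Finset.Iic i, exp (-z (σ i)) ≤ ∑ i' ∈ Finset.Iic i, exp (-z (σ i')) := by
        refine Finset.sum_le_sum fun i' hi' => ?_
        apply exp_le_exp.mpr
        have := hmono (Finset.mem_Iic.mp hi')
        simp only [Function.comp] at this
        linarith
      have h4 : ∑ i' ∈ Finset.Iic i, exp (-z (σ i')) ≤ ∑ i', exp (-z (σ i')) :=
        Finset.sum_le_sum_of_subset_of_nonneg (Finset.subset_univ _)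
          (fun _ _ _ => (exp_pos _).le)
      rw [Equiv.sum_comp σ (fun i => exp (-z i))] at h4
      rw [Finset.sum_const, Fin.card_Iic, nsmul_eq_mul] at h3
      push_cast at h3
      linarith
    have h3 : ((i : ℝ) + 1) ≤ exp (z (σ i)) := by
      have h4 := mul_le_mul_of_nonneg_right h2 (exp_pos (z (σ i))).le
      rw [mul_assoc, ← exp_add, neg_add_cancel, exp_zero, mul_one, one_mul] at h4
      exact h4
    have h4 := Real.log_le_log (by positivity) h3
    rwa [Real.log_exp] at h4
  refine ⟨ε, fun j hj => by rw [hε, hyE.2 j hj], fun i => ?_, fun s hs => ?_⟩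
  · obtain ⟨i, rfl⟩ := σ.surjective i
    rw [hdev']
    have h2 := hy1 i
    have h3 : Pool.Agent.H86.KB.C1 t (1 + Real.log ((i : ℝ) + 1))
        ≤ Pool.Agent.H86.KB.C1 t (1 + z (σ i)) :=
      Pool.Agent.H86.KB.C1_mono ht1 (by linarith [hrank i])
    have h4 := const_le h0 h1 (show 0 ≤ 1 + z (σ i) by linarith [hz (σ i)])
    calc δ * |∑ j, a i j * (y j - x j)|
        ≤ δ * (4500 * Pool.Agent.H86.KB.C1 t (1 + z (σ i))) :=
          mul_le_mul_of_nonneg_left (by linarith) h0.le
      _ = 4500 * (δ * Pool.Agent.H86.KB.C1 t (1 + z (σ i))) := by ring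
      _ ≤ 4500 * (80000 * bound δ (1 + z (σ i))) := by linarith
      _ = 360000000 * bound δ (1 + z (σ i)) := by ring
  · have h2 := hy2 s hs
    have h3 : (Finset.univ.filter fun i : Fin d =>
        360000000 * bound δ (1 + s) < |dev v x ε i|)
        ⊆ (Finset.univ.filter fun i : Fin d =>
          4500 * Pool.Agent.H86.KB.C1 t (1 + s) < |∑ j, a i j * (y j - x j)|).map
            σ.toEmbedding := by
      intro i hi
      obtain ⟨i, rfl⟩ := σ.surjective i
      rw [Finset.mem_map]
      refine ⟨i, ?_, rfl⟩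
      rw [Finset.mem_filter] at hi ⊢
      refine ⟨Finset.mem_univ _, ?_⟩
      have h4 := hi.2
      rw [hdev'] at h4
      have h5 := const_le h0 h1 (show 0 ≤ 1 + s by linarith)
      have h6 : δ * (4500 * Pool.Agent.H86.KB.C1 t (1 + s)) < δ * |∑ j, a i j * (y j - x j)| := by
        calc δ * (4500 * Pool.Agent.H86.KB.C1 t (1 + s))
            = 4500 * (δ * Pool.Agent.H86.KB.C1 t (1 + s)) := by ring
          _ ≤ 4500 * (80000 * bound δ (1 + s)) := by linarith
          _ = 360000000 * bound δ (1 + s) := by ring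
          _ < _ := h4
      exact lt_of_mul_lt_mul_left h6 h0.le
    have h4 := Finset.card_le_card h3
    rw [Finset.card_map] at h4
    have h5 : ((Finset.univ.filter fun i : Fin d =>
        360000000 * bound δ (1 + s) < |dev v x ε i|).card : ℝ)
        ≤ ((Finset.univ.filter fun i : Fin d =>
          4500 * Pool.Agent.H86.KB.C1 t (1 + s) < |∑ j, a i j * (y j - x j)|).card : ℝ) := by
      exact_mod_cast h4
    refine (h5.trans h2).trans ?_
    have h6 : 0 ≤ ((min n d : ℕ) : ℝ) * exp (-s) := by positivity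
    linarith

end Pool.Agent.Results.MP_c81d26_co.GradedBounds
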