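import Pool.Agent.H34KM.Equiv
import Pool.Agent.Results.MP_c81d26_co.LaminarRounding

/-!
# Komlós rounding inside strongly base orderable matroids, and sets with the cube property

Let `S ⊆ ℝ^d` be a set with the cube property of radius `ρ`: for any two points `p`, `q` of `S`
there are vectors `w_1, …, w_k` of Euclidean length at most `ρ` such that all the points
`(p + q) / 2 ± w_1 ± ⋯ ± w_k` belong to `S`.

(1) If all finite families of vectors of the unit ball of `ℝ^d` have signings of value at most `B`,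
then every point of the convex hull of `S` is within `2 B ρ + η` (for every `η > 0`) of a point of
`S` in all coordinates.

(2) Unconditionally the distance is at most `C ρ (1 + log (1 + d))^{1/4}`, `C` absolute.

(3) Let `F` be a family of subsets of an `n`-element set such that for any two members `A`, `B` the
symmetric difference `A ∆ B` has a partition with parts of at most `b` elements such that `A ∆ U`
belongs to `F` for every union `U` of parts. For all vectors `v_j` of the unit ball of `ℝ^d` indexed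
by the ground set, and every `x` in the convex hull of the indicator functions of the members of
`F`, there is `A ∈ F` such that all coordinates of `∑_{j ∈ A} v_j - ∑_j x_j v_j` are at most
`C b (1 + log (1 + min n d))^{1/4}`.

(4) With `b = 2` this applies to the bases of every strongly base orderable matroid, and to the
systems of distinct representatives of every finite set system (every bipartite graph).

(5) The following are equivalent: Komlós's conjecture; the bound `c ρ` for all sets with the cube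
property; the bound `c b` for all families as in (3); the bound `c` for the bases of all strongly
base orderable matroids; the bound `c` for the transversals of all finite set systems.

Proof. A point of the convex hull is nearly an average of `2^m` points of `S`. Merge them in pairs,
level by level; at each level the choices in all the pairs are made simultaneously, by one signing
of all the vectors `w`. The error of the level with `2^m` points is `2^(1-m)` times the value of a
signing, and the sum over the levels converges. For systems of representatives the exchange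
property comes from the alternating paths of two matchings.
-/

set_option autoImplicit false

open Finset Pool.Agent.H34KM

namespace Pool.Agent.Results.MP_c81d26_co.MatroidRounding

/-- Komlós's conjecture. -/
def Komlos : Prop :=
  ∃ c : ℝ, 0 < c ∧ ∀ (n d : ℕ) (v : Fin n → Fin d → ℝ), InBall v → HasSigning v c

theorem uncond : ∃ C : ℝ, 0 ≤ C ∧ ∀ (n d : ℕ) (v : Fin n → Fin d → ℝ), InBall v →
    HasSigning v (C * (1 + Real.log (1 + ((min n d : ℕ) : ℝ))) ^ (1 / 4 : ℝ)) := by
  obtain ⟨C, hC⟩ := LaminarRounding.uncond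
  refine ⟨|C|, abs_nonneg C, fun n d v hv => ?_⟩
  obtain ⟨ε, h1, h2⟩ := hC n d v hv
  refine ⟨ε, h1, fun c => (h2 c).trans ?_⟩
  exact mul_le_mul_of_nonneg_right (le_abs_self C)
    (Real.rpow_nonneg (by linarith [one_le_L (min n d)]) _)

theorem part5 :
    [Komlos,
      ∃ c : ℝ, 0 < c ∧ ∀ (d : ℕ) (S : Set (Fin d → ℝ)) (ρ : ℝ), 0 < ρ → Cubical S ρ →
        ∀ x ∈ convexHull ℝ S, ∃ s ∈ S, ∀ i, |s i - x i| ≤ c * ρ,
      ∃ c : ℝ, 0 < c ∧ ∀ (α : Type) [Fintype α] [DecidableEq α] (d b : ℕ) (v : α → Fin d → ℝ)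
        (F : Set (Finset α)), 1 ≤ b → (∀ j, ∑ i, v j i ^ 2 ≤ 1) → BlockExchange b F →
          ∀ x ∈ Hull F, Rounds v F x (c * b),
      ∃ c : ℝ, 0 < c ∧ ∀ (α : Type) [Fintype α] [DecidableEq α] (d : ℕ) (v : α → Fin d → ℝ)
        (M : Matroid α), (∀ j, ∑ i, v j i ^ 2 ≤ 1) → StronglyBaseOrderable M →
          ∀ x ∈ Hull (Bases M), Rounds v (Bases M) x c,
      ∃ c : ℝ, 0 < c ∧ ∀ (α ι : Type) [Fintype α] [DecidableEq α] [Fintype ι] (d : ℕ)
        (v : α → Fin d → ℝ) (R : ι → α → Prop), (∀ j, ∑ i, v j i ^ 2 ≤ 1) →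
          ∀ x ∈ Hull (Transversals R), Rounds v (Transversals R) x c].TFAE := by
  tfae_have 1 → 2 := by
    rintro ⟨c, hc, h⟩
    refine ⟨2 * c + 1, by positivity, fun d S ρ hρ hS x hx => ?_⟩
    obtain ⟨s, hs, hsb⟩ := transfer d c hc.le (fun k w hw => h k d w hw) S ρ hρ hS x hx ρ hρ
    exact ⟨s, hs, fun i => (hsb i).trans (le_of_eq (by ring))⟩
  tfae_have 2 → 3 := by
    rintro ⟨c, hc, h⟩
    exact ⟨c, hc, fun α _ _ d b v F hb hv hF x hx => fam_transfer c h d b hb v hv F hF x hx⟩
  tfae_have 3 → 4 := by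
    rintro ⟨c, hc, h⟩
    refine ⟨c * (2 : ℕ), by positivity, fun α _ _ d v M hv hM x hx => ?_⟩
    exact h α d 2 v (Bases M) (by norm_num) hv (sbo_exchange M hM) x hx
  tfae_have 3 → 5 := by
    rintro ⟨c, hc, h⟩
    refine ⟨c * (2 : ℕ), by positivity, fun α ι _ _ _ d v R hv x hx => ?_⟩
    exact h α d 2 v (Transversals R) (by norm_num) hv (transversals_exchange R) x hx
  tfae_have 4 → 1 := by
    rintro ⟨c, hc, h⟩
    refine ⟨c, hc, fun n d v hv => komlos_of_pairs n d v c hv fun u hu x hx => ?_⟩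
    rw [← bases_pair] at hx ⊢
    exact h (Fin n × Bool) d u (pairMatroid n) hu (pairMatroid_sbo n) x hx
  tfae_have 5 → 1 := by
    rintro ⟨c, hc, h⟩
    exact ⟨c, hc, fun n d v hv => komlos_of_pairs n d v c hv fun u hu x hx =>
      h (Fin n × Bool) (Fin n) d u _ hu x hx⟩
  tfae_finish

/-- **Komlós rounding inside matroids and sets with the cube property**: see the header. -/
theorem result :
    -- (1) transfer
    (∀ (d : ℕ) (B : ℝ), 0 ≤ B →
      (∀ (k : ℕ) (w : Fin k → Fin d → ℝ), InBall w → HasSigning w B) →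
      ∀ (S : Set (Fin d → ℝ)) (ρ : ℝ), 0 < ρ → Cubical S ρ → ∀ x ∈ convexHull ℝ S,
        ∀ η : ℝ, 0 < η → ∃ s ∈ S, ∀ i, |s i - x i| ≤ 2 * B * ρ + η) ∧
    -- (2) sets with the cube property
    (∃ C : ℝ, ∀ (d : ℕ) (S : Set (Fin d → ℝ)) (ρ : ℝ), 0 < ρ → Cubical S ρ →
      ∀ x ∈ convexHull ℝ S, ∃ s ∈ S, ∀ i, |s i - x i| ≤
        C * ρ * (1 + Real.log (1 + (d : ℝ))) ^ (1 / 4 : ℝ)) ∧
    -- (3) families with the block exchange property
    (∃ C : ℝ, ∀ (α : Type) [Fintype α] [DecidableEq α] (d b : ℕ) (v : α → Fin d → ℝ)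
      (F : Set (Finset α)), 1 ≤ b → (∀ j, ∑ i, v j i ^ 2 ≤ 1) → BlockExchange b F →
        ∀ x ∈ Hull F, Rounds v F x
          (C * b * (1 + Real.log (1 + ((min (Fintype.card α) d : ℕ) : ℝ))) ^ (1 / 4 : ℝ))) ∧
    -- (4) strongly base orderable matroids and transversals
    (∀ (α : Type) [Fintype α] [DecidableEq α],
      (∀ M : Matroid α, StronglyBaseOrderable M → BlockExchange 2 (Bases M)) ∧
      ∀ (ι : Type) [Fintype ι] (R : ι → α → Prop), BlockExchange 2 (Transversals R)) ∧
    -- (5) equivalent forms of the conjecture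
    [Komlos,
      ∃ c : ℝ, 0 < c ∧ ∀ (d : ℕ) (S : Set (Fin d → ℝ)) (ρ : ℝ), 0 < ρ → Cubical S ρ →
        ∀ x ∈ convexHull ℝ S, ∃ s ∈ S, ∀ i, |s i - x i| ≤ c * ρ,
      ∃ c : ℝ, 0 < c ∧ ∀ (α : Type) [Fintype α] [DecidableEq α] (d b : ℕ) (v : α → Fin d → ℝ)
        (F : Set (Finset α)), 1 ≤ b → (∀ j, ∑ i, v j i ^ 2 ≤ 1) → BlockExchange b F →
          ∀ x ∈ Hull F, Rounds v F x (c * b),
      ∃ c : ℝ, 0 < c ∧ ∀ (α : Type) [Fintype α] [DecidableEq α] (d : ℕ) (v : α → Fin d → ℝ)
        (M : Matroid α), (∀ j, ∑ i, v j i ^ 2 ≤ 1) → StronglyBaseOrderable M →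
          ∀ x ∈ Hull (Bases M), Rounds v (Bases M) x c,
      ∃ c : ℝ, 0 < c ∧ ∀ (α ι : Type) [Fintype α] [DecidableEq α] [Fintype ι] (d : ℕ)
        (v : α → Fin d → ℝ) (R : ι → α → Prop), (∀ j, ∑ i, v j i ^ 2 ≤ 1) →
          ∀ x ∈ Hull (Transversals R), Rounds v (Transversals R) x c].TFAE := by
  obtain ⟨C, hC0, hC⟩ := uncond
  exact ⟨transfer, ⟨2 * C + 1, cub_uncond C hC0 hC⟩,
    ⟨2 * C + 1, fun α _ _ d b v F hb hv hF x hx => fam_uncond C hC0 hC d b hb v hv F hF x hx⟩,
    fun α _ _ => ⟨sbo_exchange, fun ι _ R => transversals_exchange R⟩, part5⟩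

end Pool.Agent.Results.MP_c81d26_co.MatroidRounding
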