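import Pool.Agent.H86.KB.Weights

/-!
# The Komlós problem in `L_p`: the constant `p ^ (1 / 4)`, for every single coordinate

Let `v_1, …, v_n` be vectors in the Euclidean unit ball of `ℝ ^ d` with entries of absolute value at
most `δ`, `0 < δ ≤ 1`, let `x ∈ [-1, 1] ^ n` be arbitrary (for instance `x = 0`), and let `p ≥ 1` be a
real number. Put `B = C min (p ^ (1 / 4)) (1 + δ p ^ (1 / 2) (1 + log (1 / δ)) ^ (3 / 2))`, with an
absolute constant `C`. For a signing `ε` let `D_i` be the coordinate `i` of `∑ (ε_j - x_j) v_j`.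

(1) There is one signing such that `∑_{i < m} exp (p |D_i| / B) ≤ m e ^ p` for all `m`: the means over
all initial segments of the coordinates are controlled at the same time. (The order of the coordinates
is arbitrary, and given in advance.)

(2) There is a probability distribution on the signings such that for EVERY coordinate `i` the
expectation of `exp (p |D_i| / B)` is at most `e ^ p`.

In both parts `ε_j = x_j` for those `j` for which `x_j` is a sign. As `y ≤ e ^ (y - 1)`, the mean values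
of `|D_i| ^ p` are at most `B ^ p`; and `P (|D_i| ≥ (1 + s) B) ≤ e ^ (- s p)`.

The bounds do not depend on `d` and `n`. So for every probability measure on the coordinates there is
a signing whose value in the norm of `L_p` is at most `C p ^ (1 / 4)`; for the uniform measure this is
the `L_p` version of the problem (for the Beck-Fiala problem: Matoušek 1998), and the constant of
vector balancing from `ℓ_2` to `ℓ_p` is at most `C p ^ (1 / 4) d ^ (1 / p)`. Before, this was known
with `p ^ (1 / 2)`: for the uniform measure by partial colourings, and for (2) by the subgaussian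
distribution of Bansal, Dadush, Garg and Lovett. The conjecture of Komlós says that `B` can be replaced
by an absolute constant, for all `p`; for `p ≤ δ ^ (-2) (1 + log (1 / δ)) ^ (-3)` we obtain this. For
`p = log d` part (2) contains the bound `C (log d) ^ (1 / 4)` of Bansal and Jiang.

Proof. A block lemma of the starting library (helper167), a form of the theorem of Bansal and Jiang,
reduces the number of fractional indices from `N` to `N e ^ (- 8 p)` at a cost of `B` for every row
(less for rows of small energy), and keeps a set of `N e ^ (- 8 p) / 50` rows unchanged. We choose the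
first rows of the given order. So the rows below `m` begin to change when `N` is of the order of
`m e ^ (8 p)`; after the phase `b` from then on the sum of their energies is at most `m e ^ (-8 p b)`,
so that only a proportion `e ^ (- 7 p b)` of them pays more than `2 ^ (-b) B` in the next one.
By summation by parts (1) gives a signing for arbitrary weights, and the minimax theorem gives (2).
-/

set_option autoImplicit false

open Finset Real

namespace Pool.Agent.Results.MP_c81d26_co.MomentBounds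

/-- The sign of a truth value. -/
def sgn (b : Bool) : ℝ := if b then 1 else -1

/-- The coordinate `i` of `∑ (ε_j - x_j) v_j`. -/
noncomputable def dev {n d : ℕ} (v : Fin n → Fin d → ℝ) (x : Fin n → ℝ) (ε : Fin n → Bool)
    (i : Fin d) : ℝ :=
  ∑ j, (sgn (ε j) - x j) * v j i

/-- The signing `ε` agrees with `x` where `x` is a sign. -/
def Extends {n : ℕ} (x : Fin n → ℝ) (ε : Fin n → Bool) : Prop :=
  ∀ j, |x j| = 1 → sgn (ε j) = x j

/-- `min (p ^ (1 / 4)) (1 + δ p ^ (1 / 2) (1 + log (1 / δ)) ^ (3 / 2))`. -/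
noncomputable def bound (δ p : ℝ) : ℝ :=
  min (p ^ (1 / 4 : ℝ)) (1 + δ * Real.sqrt p * (1 + Real.log (1 / δ)) ^ (3 / 2 : ℝ))

theorem sgn_eq (b : Bool) : sgn b = Pool.Agent.H86.KB.sgn b := rfl

theorem bound_pos {δ p : ℝ} (h0 : 0 < δ) (h1 : δ ≤ 1) (hp : 1 ≤ p) : 0 < bound δ p := by
  have h2 : 0 ≤ Real.log (1 / δ) := Real.log_nonneg (by rw [le_div_iff₀ h0]; linarith)
  unfold bound
  apply lt_min <;> positivity

/-- The constant. -/
theorem const_le {δ p : ℝ} (h0 : 0 < δ) (h1 : δ ≤ 1) (hp : 1 ≤ p) :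
    δ * (20 * Pool.Agent.H86.KB.C1 (1 / δ ^ 2) (16 * p)) ≤ 7000000 * bound δ p := by
  have hL : 0 ≤ Real.log (1 / δ) := Real.log_nonneg (by rw [le_div_iff₀ h0]; linarith)
  have hp0 : 0 ≤ p := by linarith
  have hst : Real.sqrt (1 / δ ^ 2) = 1 / δ := by
    rw [Real.sqrt_div (by norm_num), Real.sqrt_one, Real.sqrt_sq h0.le]
  have hlog : Real.log (1 / δ ^ 2) = 2 * Real.log (1 / δ) := by
    rw [← Real.log_rpow (by positivity)]
    congr 1
    rw [Real.rpow_two]
    field_simp
  have hM : 960 * (16 * p) = 15360 * p := by ring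
  have hs1 : Real.sqrt (15360 * p) ≤ 144 * Real.sqrt p := by
    rw [show (144 : ℝ) = Real.sqrt (144 ^ 2) by rw [Real.sqrt_sq (by norm_num)],
      ← Real.sqrt_mul (by norm_num)]
    apply Real.sqrt_le_sqrt
    nlinarith
  have hs2 : Real.sqrt (Real.sqrt (15360 * p)) ≤ 12 * p ^ (1 / 4 : ℝ) := by
    have h2 : Real.sqrt (144 * Real.sqrt p) = 12 * p ^ (1 / 4 : ℝ) := by
      rw [Real.sqrt_mul (by norm_num), show (144 : ℝ) = 12 ^ 2 by norm_num,
        Real.sqrt_sq (by norm_num), Real.sqrt_eq_rpow, Real.sqrt_eq_rpow, ← Real.rpow_mul hp0]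
      norm_num
    rw [← h2]
    exact Real.sqrt_le_sqrt hs1
  have hpow : (1 + 2 * Real.log (1 / δ)) ^ (3 / 2 : ℝ)
      ≤ 3 * (1 + Real.log (1 / δ)) ^ (3 / 2 : ℝ) := by
    have h2 : (1 + 2 * Real.log (1 / δ)) ^ (3 / 2 : ℝ)
        ≤ (2 * (1 + Real.log (1 / δ))) ^ (3 / 2 : ℝ) :=
      Real.rpow_le_rpow (by positivity) (by linarith) (by norm_num)
    rw [Real.mul_rpow (by norm_num) (by positivity)] at h2
    have h3 : (2 : ℝ) ^ (3 / 2 : ℝ) ≤ 3 := by
      have h4 : ((2 : ℝ) ^ (3 / 2 : ℝ)) ^ 2 ≤ 3 ^ 2 := by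
        rw [← Real.rpow_natCast, ← Real.rpow_mul (by norm_num)]
        norm_num
      exact le_of_sq_le_sq' h4 (by norm_num)
    have h5 : 0 ≤ (1 + Real.log (1 / δ)) ^ (3 / 2 : ℝ) := by positivity
    nlinarith
  have hC : Pool.Agent.H86.KB.C1 (1 / δ ^ 2) (16 * p)
      = min (520 * Real.sqrt (Real.sqrt (15360 * p)) * (1 / δ))
        (520 * (1 / δ) + 753 * Real.sqrt (15360 * p) * (1 + 2 * Real.log (1 / δ)) ^ (3 / 2 : ℝ)) := by
    unfold Pool.Agent.H86.KB.C1
    rw [hM, hst, hlog]
  rw [hC]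
  set A : ℝ := 520 * Real.sqrt (Real.sqrt (15360 * p)) * (1 / δ) with hA
  set B : ℝ := 520 * (1 / δ) + 753 * Real.sqrt (15360 * p) * (1 + 2 * Real.log (1 / δ)) ^ (3 / 2 : ℝ)
    with hB
  have h6 : δ * (20 * min A B) ≤ δ * (20 * A) :=
    mul_le_mul_of_nonneg_left (by linarith [min_le_left A B]) h0.le
  have h7 : δ * (20 * min A B) ≤ δ * (20 * B) :=
    mul_le_mul_of_nonneg_left (by linarith [min_le_right A B]) h0.le
  unfold bound
  rw [mul_min_of_nonneg (p ^ (1 / 4 : ℝ)) _ (by norm_num : (0 : ℝ) ≤ 7000000)]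
  apply le_min
  · refine h6.trans ?_
    have h8 : δ * (20 * A) = 10400 * Real.sqrt (Real.sqrt (15360 * p)) := by
      rw [hA]; field_simp; ring
    rw [h8]
    have h9 : 0 ≤ p ^ (1 / 4 : ℝ) := by positivity
    linarith
  · refine h7.trans ?_
    have h8 : δ * (20 * B) = 10400
        + 15060 * (δ * (Real.sqrt (15360 * p) * (1 + 2 * Real.log (1 / δ)) ^ (3 / 2 : ℝ))) := by
      rw [hB]; field_simp; ring
    rw [h8]
    have h9 : Real.sqrt (15360 * p) * (1 + 2 * Real.log (1 / δ)) ^ (3 / 2 : ℝ)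
        ≤ (144 * Real.sqrt p) * (3 * (1 + Real.log (1 / δ)) ^ (3 / 2 : ℝ)) :=
      mul_le_mul hs1 hpow (by positivity) (by positivity)
    have h10 := mul_le_mul_of_nonneg_left h9 h0.le
    have h11 : 0 ≤ δ * Real.sqrt p * (1 + Real.log (1 / δ)) ^ (3 / 2 : ℝ) := by positivity
    have h12 : δ * ((144 * Real.sqrt p) * (3 * (1 + Real.log (1 / δ)) ^ (3 / 2 : ℝ)))
        = 432 * (δ * Real.sqrt p * (1 + Real.log (1 / δ)) ^ (3 / 2 : ℝ)) := by ring
    rw [h12] at h10
    linarith
where
  le_of_sq_le_sq' {x y : ℝ} (h : x ^ 2 ≤ y ^ 2) (hy : 0 ≤ y) : x ≤ y := by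
    nlinarith [abs_le_of_sq_le_sq h hy, le_abs_self x]

/-- There is an absolute constant `C` such that for all vectors `v_1, …, v_n` of the Euclidean unit ball
of `ℝ ^ d` with entries of absolute value at most `δ`, all `x ∈ [-1, 1] ^ n` and all real `p ≥ 1`, with
`B = C bound δ p`:

(1) some signing `ε` which agrees with `x` where `x` is a sign satisfies
`∑_{i < m} exp (p (|∑_j (ε_j - x_j) v_j (i)| / B - 1)) ≤ m` for all `m`;

(2) for some probability distribution on the signings which agree with `x` where `x` is a sign, the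
expectation of `exp (p (|∑_j (ε_j - x_j) v_j (i)| / B - 1))` is at most `1` for every coordinate `i`. -/
theorem result : ∃ C : ℝ, 0 < C ∧ ∀ (d n : ℕ) (v : Fin n → Fin d → ℝ) (δ : ℝ), 0 < δ → δ ≤ 1 →
    (∀ j i, |v j i| ≤ δ) → (∀ j, ∑ i, v j i ^ 2 ≤ 1) → ∀ x : Fin n → ℝ, (∀ j, |x j| ≤ 1) →
    ∀ p : ℝ, 1 ≤ p →
    (∃ ε : Fin n → Bool, Extends x ε ∧ ∀ m : ℕ,
      ∑ i ∈ Finset.univ.filter (fun i : Fin d => (i : ℕ) < m),
        exp (p * (|dev v x ε i| / (C * bound δ p) - 1)) ≤ m) ∧
    ∃ μ : (Fin n → Bool) → ℝ, (∀ ε, 0 ≤ μ ε) ∧ ∑ ε, μ ε = 1 ∧ (∀ ε, μ ε ≠ 0 → Extends x ε) ∧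
      ∀ i, ∑ ε, μ ε * exp (p * (|dev v x ε i| / (C * bound δ p) - 1)) ≤ 1 := by
  classical
  refine ⟨7000000, by norm_num, fun d n v δ h0 h1 hδ hv x hx p hp => ?_⟩
  set a : Fin d → Fin n → ℝ := fun i j => v j i / δ with ha
  set t : ℝ := 1 / δ ^ 2 with ht
  have ht1 : 1 ≤ t := by
    rw [ht, le_div_iff₀ (by positivity)]
    nlinarith
  have ha1 : ∀ i j, |a i j| ≤ 1 := by
    intro i j
    simp only [ha]
    rw [abs_div, abs_of_pos h0, div_le_one h0]
    exact hδ j i
  have hcol : ∀ j, ∑ i, a i j ^ 2 ≤ t := by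
    intro j
    simp only [ha, div_pow]
    rw [← Finset.sum_div, ht]
    exact div_le_div_of_nonneg_right (hv j) (by positivity)
  have hC0 : 0 < Pool.Agent.H86.KB.C1 t (16 * p) := Pool.Agent.H86.KB.C1_pos ht1 (by linarith)
  have hconst : δ * (20 * Pool.Agent.H86.KB.C1 t (16 * p)) ≤ 7000000 * bound δ p := const_le h0 h1 hp
  have hb := bound_pos h0 h1 hp
  have hdev : ∀ (ε : Fin n → Bool) (i : Fin d),
      exp (p * (|dev v x ε i| / (7000000 * bound δ p) - 1))
        ≤ exp (p * (|∑ j, a i j * (sgn (ε j) - x j)|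
          / (20 * Pool.Agent.H86.KB.C1 t (16 * p)) - 1)) := by
    intro ε i
    have h2 : dev v x ε i = δ * ∑ j, a i j * (sgn (ε j) - x j) := by
      unfold dev
      rw [Finset.mul_sum]
      refine Finset.sum_congr rfl fun j _ => ?_
      simp only [ha]
      field_simp
    rw [h2, abs_mul, abs_of_pos h0]
    apply exp_le_exp.mpr
    apply mul_le_mul_of_nonneg_left _ (by linarith)
    apply sub_le_sub_right
    rw [div_le_div_iff₀ (by positivity) (by positivity)]
    have h3 := mul_le_mul_of_nonneg_left hconst (abs_nonneg (∑ j, a i j * (sgn (ε j) - x j)))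
    linarith
  -- signings
  have hsign : ∀ y : Fin n → ℝ, (∀ j, |y j| = 1) → ∃ ε : Fin n → Bool, ∀ j, sgn (ε j) = y j := by
    intro y hy
    refine ⟨fun j => decide (y j = 1), fun j => ?_⟩
    unfold sgn
    by_cases h : y j = 1
    · simp [h]
    · have h2 : y j = -1 := by
        rcases eq_or_eq_neg_of_abs_eq (hy j) with h3 | h3
        · exact absurd h3 h
        · exact h3
      simp [h2]
      norm_num
  constructor
  · obtain ⟨y, hE, hy, hm⟩ := Pool.Agent.H86.KB.graded_psi a t ht1 ha1 hcol p hp x hx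
    obtain ⟨ε, hε⟩ := hsign y hy
    refine ⟨ε, fun j hj => by rw [hε, hE.2 j hj], fun m => ?_⟩
    refine (Finset.sum_le_sum fun i _ => hdev ε i).trans ?_
    simp only [hε]
    exact hm m
  · obtain ⟨μ, h2, h3, h4, h5⟩ := Pool.Agent.H86.KB.dist_of_weights
      (Finset.univ.filter (fun ε : Fin n → Bool => Extends x ε))
      (fun ε i => exp (p * (|∑ j, a i j * (sgn (ε j) - x j)|
        / (20 * Pool.Agent.H86.KB.C1 t (16 * p)) - 1))) 1 (by
        intro w hw
        obtain ⟨y, hE, hy, hm⟩ := Pool.Agent.H86.KB.weighted_psi a t ht1 ha1 hcol p hp x hx w hw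
        obtain ⟨ε, hε⟩ := hsign y hy
        refine ⟨ε, ?_, ?_⟩
        · rw [Finset.mem_filter]
          exact ⟨Finset.mem_univ _, fun j hj => by rw [hε, hE.2 j hj]⟩
        · simp only [hε]
          rw [one_mul]
          exact hm)
    refine ⟨μ, h2, h3, fun ε hε => ?_, fun i => ?_⟩
    · by_contra hcon
      exact hε (h4 ε (by rw [Finset.mem_filter]; exact fun h => hcon h.2))
    · refine (Finset.sum_le_sum fun ε _ => mul_le_mul_of_nonneg_left (hdev ε i) (h2 ε)).trans ?_
      exact h5 i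

end Pool.Agent.Results.MP_c81d26_co.MomentBounds
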