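import Pool.Agent.H18OZ.Fin

/-!
# The Komlós problem for Orlicz balls

Let `Φ_1, …, Φ_d` be functions on `[0, 1]` with `Φ_i (0) = 0` and `Φ_i (1) = 1` such that
`Φ_i (x) / x` is nondecreasing and `Φ_i (x) / x ^ 2` is nonincreasing, for instance
`Φ_i (x) = x ^ (q_i)` with `1 ≤ q_i ≤ 2`. Let `v_1, …, v_n` be vectors of `ℝ ^ d` with
`∑_i Φ_i (|v_j (i)|) ≤ 1` and `|v_j (i)| ≤ δ_i ≤ 1`, let `x ∈ [-1, 1] ^ n` be arbitrary (for instance
`x = 0`), let `D_i` be the coordinate `i` of `∑ (ε_j - x_j) v_j` and `L = 1 + log (min (n, d))`.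

Theorem. There is an absolute constant `C` and there is a signing `ε` such that for every
coordinate `i`, at the same time,

(1) `|D_i| ≤ C L ^ (1 / 2) y` for every `y ∈ (0, 1]` with `Φ_i (y) ≥ L ^ (- 1 / 2)`;

(2) `|D_i| ≤ C (δ_i Φ_i (δ_i) ^ (- 1 / 2) + δ_i L ^ (1 / 2) (1 + log (1 / δ_i)) ^ (3 / 2))`.

For `Φ_i (x) = x ^ (q_i)`, that is, `∑_i |v_j (i)| ^ (q_i) ≤ 1`, this is the bound
`C min (L ^ ((q_i - 1) / (2 q_i)), δ_i ^ (1 - q_i / 2) + δ_i L ^ (1 / 2) (1 + log (1 / δ_i)) ^ (3 / 2))`.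

For `q_i = 2` and equal `δ_i` these are the bounds of Bansal and Jiang (2025) for the Komlós problem;
for `q_i = 1` the bound is a constant, as in the theorems of Beck and Fiala (1981) and of Bárány
and Grinberg (1981). The exponents, the functions `Φ_i` and the bounds `δ_i` can depend on the
coordinate. So one signing has constant discrepancy in the coordinates with `q_i = 1`, discrepancy
`L ^ (1 / 4)` in those with `q_i = 2`, and constant discrepancy in those in which all entries are at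
most `L ^ (- 1 / 2) (log L) ^ (- 3 / 2)`; a coordinate pays only for its own function and for its own
largest entry. The exponent `(q - 1) / (2 q)` is the limit of the known methods: for `1 < q < 2` a
smaller one would give for set systems of degree `t = (log n) ^ (1 / 2)` the discrepancy `o (t)`,
better than the theorem of Beck and Fiala.

Proof. The method is that of Bansal and Jiang, in the form of the starting library (helper167): the
fractional colouring is moved to an extreme point of a region in which rows of large energy do not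
change and the partial sums of the other ones are bounded, and the point is controlled by
potentials of the rows, weighted by the columns. The new ingredient is an energy of the entries
which is adapted to the row: `Φ_i (|v_j (i)|)` instead of the square. The levels of a row are given
by its energy, the entry above which the elements are dropped at a level is given by `Φ_i`, and the
quadratic terms of the potentials are compared with the energy at every level.
-/

set_option autoImplicit false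

open Finset Real

namespace Pool.Agent.Results.MP_c81d26_co.OrliczBalls

/-- A function on `[0, 1]` with `Φ 0 = 0` and `Φ 1 = 1` such that `Φ x / x` is nondecreasing and
`Φ x / x ^ 2` is nonincreasing on `(0, 1]`. -/
def Between (Φ : ℝ → ℝ) : Prop :=
  Φ 0 = 0 ∧ Φ 1 = 1 ∧ ∀ x y, 0 < x → x ≤ y → y ≤ 1 →
    Φ x / x ≤ Φ y / y ∧ Φ y / y ^ 2 ≤ Φ x / x ^ 2

/-- The sign of a truth value. -/
def sgn (b : Bool) : ℝ := if b then 1 else -1

/-- The coordinate `i` of `∑ (ε_j - x_j) v_j`. -/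
noncomputable def dev {n d : ℕ} (v : Fin n → Fin d → ℝ) (x : Fin n → ℝ) (ε : Fin n → Bool)
    (i : Fin d) : ℝ :=
  ∑ j, (sgn (ε j) - x j) * v j i

/-- The signing `ε` agrees with `x` where `x` is a sign. -/
def Extends {n : ℕ} (x : Fin n → ℝ) (ε : Fin n → Bool) : Prop :=
  ∀ j, |x j| = 1 → sgn (ε j) = x j

/-- `1 + log (min (n, d))`. -/
noncomputable def L (n d : ℕ) : ℝ := 1 + Real.log ((min n d : ℕ) : ℝ)

theorem orl {Φ : ℝ → ℝ} (h : Between Φ) : H18OZ.Orl Φ := by
  obtain ⟨h0, h1, h2⟩ := h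
  refine ⟨h0, h1, fun x y hx hxy hy => ?_, fun x y hx hxy hy => ?_⟩
  · have h3 := (h2 x y hx hxy hy).1
    have hy0 : 0 < y := hx.trans_le hxy
    rwa [div_le_div_iff₀ hx hy0] at h3
  · have h3 := (h2 x y hx hxy hy).2
    have hy0 : 0 < y := hx.trans_le hxy
    rwa [div_le_div_iff₀ (by positivity) (by positivity)] at h3

/-- Powers. -/
theorem between_rpow {q : ℝ} (h1 : 1 ≤ q) (h2 : q ≤ 2) : Between (fun x => x ^ q) := by
  refine ⟨Real.zero_rpow (by linarith), Real.one_rpow q, fun x y hx hxy _ => ?_⟩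
  have hy : 0 < y := hx.trans_le hxy
  constructor
  · show x ^ q / x ≤ y ^ q / y
    rw [← Real.rpow_sub_one hx.ne', ← Real.rpow_sub_one hy.ne']
    exact Real.rpow_le_rpow hx.le hxy (by linarith)
  · show y ^ q / y ^ 2 ≤ x ^ q / x ^ 2
    rw [← Real.rpow_two, ← Real.rpow_two, ← Real.rpow_sub hx, ← Real.rpow_sub hy]
    exact Real.rpow_le_rpow_of_nonpos hx hxy (by linarith)

theorem main (d n : ℕ) (Φ : Fin d → ℝ → ℝ) (δ : Fin d → ℝ) (v : Fin n → Fin d → ℝ)
    (x : Fin n → ℝ) (hΦ : ∀ i, Between (Φ i)) (hδ : ∀ i, 0 < δ i ∧ δ i ≤ 1)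
    (hv : ∀ j i, |v j i| ≤ δ i) (hc : ∀ j, ∑ i, Φ i |v j i| ≤ 1) (hx : ∀ j, |x j| ≤ 1) :
    ∃ ε : Fin n → Bool, Extends x ε ∧ ∀ i,
      (∀ y, 0 < y → y ≤ 1 → 1 / Real.sqrt (L n d) ≤ Φ i y →
        |dev v x ε i| ≤ 100000 * (Real.sqrt (L n d) * y)) ∧
      |dev v x ε i| ≤ 100000 * (δ i / Real.sqrt (Φ i (δ i))
        + δ i * Real.sqrt (L n d) * (1 + Real.log (1 / δ i)) ^ (3 / 2 : ℝ)) := by
  obtain ⟨y, hys, hyx, hy1, hy2⟩ := H18OZ.round_min (fun i j => v j i) Φ (fun i => orl (hΦ i)) δ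
    (fun i => (hδ i).1) (fun i => (hδ i).2) (fun i j => hv j i) hc x hx (L n d) rfl
  obtain ⟨ε, hε⟩ : ∃ ε : Fin n → Bool, ∀ j, sgn (ε j) = y j := by
    refine ⟨fun j => decide (y j = 1), fun j => ?_⟩
    unfold sgn
    by_cases h : y j = 1
    · simp [h]
    · have h2 : y j = -1 := by
        rcases eq_or_eq_neg_of_abs_eq (hys j) with h3 | h3
        · exact absurd h3 h
        · exact h3
      simp [h2]
      norm_num
  have hdev : ∀ i, dev v x ε i = ∑ j, v j i * (y j - x j) := by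
    intro i
    unfold dev
    refine Finset.sum_congr rfl fun j _ => ?_
    rw [hε]; ring
  have hL : 1 ≤ L n d := by
    have := Real.log_natCast_nonneg (min n d)
    unfold L; linarith
  have hsL : 0 < Real.sqrt (L n d) := Real.sqrt_pos.mpr (by linarith)
  refine ⟨ε, fun j hj => by rw [hε, hyx j hj], fun i => ⟨fun z hz0 hz1 hz => ?_, ?_⟩⟩
  · rw [hdev]
    rw [div_le_iff₀ hsL] at hz
    refine (hy1 i z hz0 hz1 (by linarith)).trans ?_
    have : 0 ≤ Real.sqrt (L n d) * z := by positivity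
    linarith
  · rw [hdev]
    exact hy2 i

/-- There is an absolute constant `C` with the following properties.

(1) Let `Φ_1, …, Φ_d` be functions as above, `0 < δ_i ≤ 1`, let `v_1, …, v_n` be vectors with
`|v_j (i)| ≤ δ_i` and `∑_i Φ_i (|v_j (i)|) ≤ 1` and let `x ∈ [-1, 1] ^ n`. Then there is a signing
`ε`, which agrees with `x` where `x` is a sign, such that for every coordinate `i`
`|D_i| ≤ C L ^ (1 / 2) y` for all `y ∈ (0, 1]` with `Φ_i (y) ≥ L ^ (- 1 / 2)`, and
`|D_i| ≤ C (δ_i Φ_i (δ_i) ^ (- 1 / 2) + δ_i L ^ (1 / 2) (1 + log (1 / δ_i)) ^ (3 / 2))`.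

(2) Let `1 ≤ q_i ≤ 2`, `0 < δ_i ≤ 1`, let `v_1, …, v_n` be vectors with `|v_j (i)| ≤ δ_i` and
`∑_i |v_j (i)| ^ (q_i) ≤ 1` and let `x ∈ [-1, 1] ^ n`. Then there is a signing `ε`, which agrees
with `x` where `x` is a sign, such that for every coordinate `i`
`|D_i| ≤ C min (L ^ ((q_i - 1) / (2 q_i)), δ_i ^ (1 - q_i / 2) + δ_i L ^ (1 / 2) (1 + log (1 / δ_i)) ^ (3 / 2))`.
-/
theorem result : ∃ C : ℝ, 0 < C ∧
    (∀ (d n : ℕ) (Φ : Fin d → ℝ → ℝ) (δ : Fin d → ℝ) (v : Fin n → Fin d → ℝ) (x : Fin n → ℝ),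
      (∀ i, Between (Φ i)) → (∀ i, 0 < δ i ∧ δ i ≤ 1) → (∀ j i, |v j i| ≤ δ i) →
      (∀ j, ∑ i, Φ i |v j i| ≤ 1) → (∀ j, |x j| ≤ 1) →
      ∃ ε : Fin n → Bool, Extends x ε ∧ ∀ i,
        (∀ y, 0 < y → y ≤ 1 → 1 / Real.sqrt (L n d) ≤ Φ i y →
          |dev v x ε i| ≤ C * (Real.sqrt (L n d) * y)) ∧
        |dev v x ε i| ≤ C * (δ i / Real.sqrt (Φ i (δ i))
          + δ i * Real.sqrt (L n d) * (1 + Real.log (1 / δ i)) ^ (3 / 2 : ℝ))) ∧
    (∀ (d n : ℕ) (q δ : Fin d → ℝ) (v : Fin n → Fin d → ℝ) (x : Fin n → ℝ),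
      (∀ i, 1 ≤ q i ∧ q i ≤ 2) → (∀ i, 0 < δ i ∧ δ i ≤ 1) → (∀ j i, |v j i| ≤ δ i) →
      (∀ j, ∑ i, |v j i| ^ q i ≤ 1) → (∀ j, |x j| ≤ 1) →
      ∃ ε : Fin n → Bool, Extends x ε ∧ ∀ i, |dev v x ε i| ≤ C *
        min (L n d ^ ((q i - 1) / (2 * q i)))
          (δ i ^ (1 - q i / 2)
            + δ i * Real.sqrt (L n d) * (1 + Real.log (1 / δ i)) ^ (3 / 2 : ℝ))) := by
  refine ⟨100000, by norm_num, fun d n Φ δ v x h1 h2 h3 h4 h5 => main d n Φ δ v x h1 h2 h3 h4 h5,
    fun d n q δ v x hq hδ hv hc hx => ?_⟩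
  obtain ⟨ε, hε, hD⟩ := main d n (fun i y => y ^ q i) δ v x
    (fun i => between_rpow (hq i).1 (hq i).2) hδ hv hc hx
  refine ⟨ε, hε, fun i => ?_⟩
  have hL : 1 ≤ L n d := by
    have := Real.log_natCast_nonneg (min n d)
    unfold L; linarith
  have hL0 : 0 < L n d := by linarith
  obtain ⟨hq1, hq2⟩ := hq i
  have hq0 : 0 < q i := by linarith
  rw [mul_min_of_nonneg _ _ (by norm_num : (0 : ℝ) ≤ 100000)]
  apply le_min
  · have h1 := (hD i).1 (L n d ^ (-(1 / (2 * q i)))) (Real.rpow_pos_of_pos hL0 _)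
      (Real.rpow_le_one_of_one_le_of_nonpos hL (by
        have : 0 ≤ 1 / (2 * q i) := by positivity
        linarith)) (by
        show 1 / Real.sqrt (L n d) ≤ (L n d ^ (-(1 / (2 * q i)))) ^ q i
        rw [← Real.rpow_mul hL0.le, Real.sqrt_eq_rpow, one_div, ← Real.rpow_neg hL0.le]
        apply le_of_eq
        congr 1
        field_simp)
    have h2 : Real.sqrt (L n d) * L n d ^ (-(1 / (2 * q i))) = L n d ^ ((q i - 1) / (2 * q i)) := by
      rw [Real.sqrt_eq_rpow, ← Real.rpow_add hL0]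
      congr 1
      field_simp
      ring
    rwa [h2] at h1
  · have h1 := (hD i).2
    have hδ0 := (hδ i).1
    have h2 : δ i / Real.sqrt (δ i ^ q i) = δ i ^ (1 - q i / 2) := by
      rw [Real.sqrt_eq_rpow, ← Real.rpow_mul hδ0.le, Real.rpow_sub hδ0, Real.rpow_one]
      congr 2
      ring
    simp only [h2] at h1
    exact h1

end Pool.Agent.Results.MP_c81d26_co.OrliczBalls
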